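import Pool.Agent.H5.FT.Fin

namespace Pool.Agent.Results.MP_470117_nt.NearDiagonal

/-- The Feit-Thompson conjecture near the diagonal, with a bound for the greatest common divisor.

For `0 < ε ≤ 1` there is a bound `P` such that for all primes `p ≥ P` and all integers `q` with
`p < q ≤ p + p / (log p) ^ (1 + ε)` the greatest common divisor of `q ^ p - 1` and `p ^ q - 1` is
at most `p ^ p * ((q - p) / p) ^ (ε ^ 2 p / 128)`, and `(q ^ p - 1) / (q - 1)` does not divide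
`(p ^ q - 1) / (p - 1)`. -/
theorem result (ε : ℝ) (hε : 0 < ε) (hε1 : ε ≤ 1) :
    ∃ P : ℕ, ∀ p q : ℕ, p.Prime → P ≤ p → p < q →
      ((q : ℝ) - p) * Real.log p ^ (1 + ε) ≤ p →
        (((q ^ p - 1).gcd (p ^ q - 1) : ℕ) : ℝ) ≤
          (p : ℝ) ^ p * (((q : ℝ) - p) / p) ^ (ε ^ 2 / 128 * p) ∧
        ¬ (q ^ p - 1) / (q - 1) ∣ (p ^ q - 1) / (p - 1) :=
  H5FT.fin_one ε hε hε1

end Pool.Agent.Results.MP_470117_nt.NearDiagonal
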