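import Pool.Agent.H5.FA.Fin

namespace Pool.Agent.Results.MP_470117_nt.PthPower

open Finset

/-- The `p`-th power obstruction for Feit-Thompson pairs.

If `2 < p < q` are primes and `(q ^ p - 1) / (q - 1)` divides `(p ^ q - 1) / (p - 1)`, then
`(q - 1) ^ (p - 1) + ∑_(k = 1)^(p - 1) (k ^ (p - 1) - 1) q ^ (p - k) ≡ 1` modulo `p ^ 2`. For every odd
prime `p` this congruence holds for exactly one residue class modulo `p ^ 2` above each residue class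
modulo `p` other than the class of `1`, and for no class above the class of `1`. -/
theorem result (p : ℕ) (hp : p.Prime) (hp2 : 2 < p) :
    (∀ q : ℕ, q.Prime → p < q → (q ^ p - 1) / (q - 1) ∣ (p ^ q - 1) / (p - 1) →
      ((q : ℤ) - 1) ^ (p - 1) + ∑ k ∈ Icc 1 (p - 1), ((k : ℤ) ^ (p - 1) - 1) * (q : ℤ) ^ (p - k) ≡ 1
        [ZMOD (p : ℤ) ^ 2]) ∧
    (∀ x : ℤ, ¬ x ≡ 1 [ZMOD p] → ∃! t : ℕ, t < p ∧
      (x + p * t - 1) ^ (p - 1) + ∑ k ∈ Icc 1 (p - 1), ((k : ℤ) ^ (p - 1) - 1) * (x + p * t) ^ (p - k) ≡ 1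
        [ZMOD (p : ℤ) ^ 2]) ∧
    (∀ x : ℤ, x ≡ 1 [ZMOD p] →
      ¬ (x - 1) ^ (p - 1) + ∑ k ∈ Icc 1 (p - 1), ((k : ℤ) ^ (p - 1) - 1) * x ^ (p - k) ≡ 1
        [ZMOD (p : ℤ) ^ 2]) := by
  refine ⟨fun q hq hpq h => ?_, fun x hx => ?_, fun x hx => ?_⟩
  · exact H5FA.pth p q hp hq hp2 hpq h
  · refine H5FA.uni p hp hp2 x fun h => hx ?_
    rw [Int.modEq_comm, Int.modEq_iff_dvd]
    exact h
  · refine H5FA.no_one p hp hp2 x ?_
    rw [Int.modEq_comm, Int.modEq_iff_dvd] at hx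
    exact hx

end Pool.Agent.Results.MP_470117_nt.PthPower
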