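import Pool.Agent.H5.FB.Fin

namespace Pool.Agent.Results.MP_470117_nt.Quartic

/-- The quartic obstruction for Feit-Thompson pairs.

If `p < q` are primes, `p ≡ 3` modulo `4`, `p > 3`, and `(q ^ p - 1) / (q - 1)` divides
`(p ^ q - 1) / (p - 1)`, then either `q ≡ 7` modulo `8` and `2 (q - 1)` is a quadratic non-residue
modulo `p`, or `q ≡ 3` modulo `8` and `2 (q - 1)` is a quadratic residue modulo `p`. -/
theorem result (p q : ℕ) [Fact p.Prime] (hq : q.Prime) (h3 : p % 4 = 3) (hp3 : 3 < p) (hpq : p < q)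
    (h : (q ^ p - 1) / (q - 1) ∣ (p ^ q - 1) / (p - 1)) :
    (q % 8 = 7 ∧ legendreSym p (2 * ((q : ℤ) - 1)) = -1) ∨
      (q % 8 = 3 ∧ legendreSym p (2 * ((q : ℤ) - 1)) = 1) :=
  H5FB.quartic p q hq h3 hp3 hpq h

end Pool.Agent.Results.MP_470117_nt.Quartic
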